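import Mathlib
import Pool.Agent.H.MP_5f9c07_co.J

namespace Pool.Agent.Results.MP_4e9c6d_co.Normal

open Pool.Agent.H.MP_5f9c07_co Matroid Set

theorem result (F : Type) [Field F] [Fintype F] (k : ℕ) (α : Type) [Fintype α] (M : Matroid α)
    (h1 : Rep F M) (h2 : Simp M) (h3 : ¬ Low F k M)
    (h4 : ∀ X, M.IsFlat X → X.Nonempty → Low F k (M ／ X)) (H : Set α) (h5 : ModHyp M H) :
    Normal (Fintype.card F ^ k + 1) M := by
  obtain ⟨n, v, h⟩ := h1
  refine Rp.norm h h2 (fun f => by_contra fun q => h3 ((Rp.low h).2 ⟨f, by simpa using q⟩))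
    (fun u hu => ?_) h5
  have w := singleton_subset_iff.2 hu
  have := h4 {u} ((Rp.flat h).2 ⟨w, fun e he q => ?_⟩) (singleton_nonempty u)
  · obtain ⟨f, -, q⟩ := (Rp.mlow h w ∅).1 (by simpa using this)
    exact ⟨f, fun e a b => q e a b (notMem_empty e)⟩
  obtain ⟨c, q⟩ := Submodule.mem_span_singleton.1 (image_singleton ▸ q)
  exact (Rp.par h h2 hu he q).symm

end Pool.Agent.Results.MP_4e9c6d_co.Normal
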